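import Mathlib
import Pool.Agent.K4H20.TC.T10
import Pool.Agent.K4H49.AC.A12

/-! A lower bound for the largest central value in every coset of every subgroup of index at most
`q ^ δ`, `δ ≤ 1 / 40`, for all large primes `q`. -/

set_option autoImplicit false

namespace Pool.Agent.K4H20.Old.PowerIndex

/-- **Central values in all cosets of subgroups of index `q ^ δ`.** -/
theorem result : ∀ δ : ℝ, 0 < δ → δ ≤ 1 / 40 → ∃ q₀ : ℕ, ∀ (q : ℕ) [NeZero q], q₀ ≤ q → q.Prime →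
    ∀ (H : Subgroup (DirichletCharacter ℂ q)) (χ₀ : DirichletCharacter ℂ q),
      (H.index : ℝ) ≤ (q : ℝ) ^ δ →
      ∃ ψ ∈ H, Real.exp (-(Real.log q) ^ (1 / 2 + 5 * δ)) ≤
        ‖DirichletCharacter.LFunction (χ₀ * ψ) (1 / 2)‖ := by
  intro δ hδ0 hδ1
  obtain ⟨q₀, h⟩ := Pool.Agent.K4H20.TC.core_nv δ hδ0 hδ1
  refine ⟨q₀, fun q _ hqq hq H χ₀ hH => ?_⟩
  have : Fact q.Prime := ⟨hq⟩
  have hq0 : (0 : ℝ) < q := by exact_mod_cast hq.pos
  obtain ⟨ψ, hψ, h1⟩ := h q hqq H χ₀ (by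
    rw [Pool.Agent.K4H49.AC.card_ann_index' H]
    refine hH.trans (le_of_eq ?_)
    rw [Real.rpow_def_of_pos hq0, mul_comm])
  exact ⟨ψ, hψ, h1⟩

end Pool.Agent.K4H20.Old.PowerIndex
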